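import Pool.Agent.X15.PackedSeries

/-!
# Packed computation of `E_k / (j - j₀)` modulo `N`
-/

namespace Pool.Agent.X15.EisensteinPacked

open Finset PackedSeries

/-- contribution of `d` to `σ_s(n)` -/
def sgTerm (s n d : ℕ) : ℕ :=
  Nat.rec (Nat.rec (Nat.rec 0 (fun _ _ => Nat.pow d s) (Nat.sub (Nat.succ n) (Nat.mul d d)))
    (fun _ _ => Nat.add (Nat.pow d s) (Nat.pow (Nat.div n d) s)) (Nat.sub n (Nat.mul d d)))
    (fun _ _ => 0) (Nat.mod n d)

/-- `σ_s(n)` for `n < 4096` -/
def sg (s n : ℕ) : ℕ := bsum (fun d => sgTerm s n d) 6 0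

theorem rec_ite {α : Type} (x y : α) (m : ℕ) :
    (Nat.rec x (fun _ _ => y) m : α) = if m = 0 then x else y := by
  cases m <;> simp

theorem sgTerm_eq (s n d : ℕ) : sgTerm s n d =
    if n % d = 0 then (if d * d < n then d ^ s + (n / d) ^ s else if d * d = n then d ^ s else 0)
    else 0 := by
  have h : sgTerm s n d = Nat.rec (Nat.rec (Nat.rec 0 (fun _ _ => d ^ s) (n + 1 - d * d))
    (fun _ _ => d ^ s + (n / d) ^ s) (n - d * d)) (fun _ _ => 0) (n % d) := rfl
  rw [h, rec_ite, rec_ite, rec_ite]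
  by_cases h1 : n % d = 0
  · rw [if_pos h1, if_pos h1]
    by_cases h2 : d * d < n
    · rw [if_neg (by omega), if_pos h2]
    · rw [if_pos (by omega), if_neg h2]
      by_cases h3 : d * d = n
      · rw [if_neg (by omega), if_pos h3]
      · rw [if_pos (by omega), if_neg h3]
  · rw [if_neg h1, if_neg h1]

theorem sg_zero (s : ℕ) (hs : s ≠ 0) : sg s 0 = 0 := by
  unfold sg
  rw [bsum_eq]
  apply Finset.sum_eq_zero
  intro d _
  rw [sgTerm_eq]
  simp only [Nat.zero_mod, if_true, Nat.zero_add]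
  by_cases hd : d = 0
  · subst hd; simp [hs]
  · have : d * d ≠ 0 := Nat.mul_ne_zero hd hd
    rw [if_neg (by omega), if_neg (by omega)]

theorem sg_eq (s n : ℕ) (hs : s ≠ 0) (hn : n < 4096) : sg s n = ArithmeticFunction.sigma s n := by
  rcases Nat.eq_zero_or_pos n with rfl | hpos
  · rw [sg_zero s hs]; simp
  unfold sg
  rw [bsum_eq, ArithmeticFunction.sigma_apply]
  have h64 : (2 : ℕ) ^ 6 = 64 := by norm_num
  simp only [h64, Nat.zero_add]
  -- split the divisor sum
  have h1 : ∑ d ∈ n.divisors, d ^ s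
      = ∑ d ∈ n.divisors, (if d * d < n then d ^ s + (n / d) ^ s
          else if d * d = n then d ^ s else 0) := by
    have e1 : ∑ d ∈ n.divisors, d ^ s = ∑ d ∈ n.divisors, (if d * d ≤ n then d ^ s else 0)
        + ∑ d ∈ n.divisors, (if n < d * d then d ^ s else 0) := by
      rw [← Finset.sum_add_distrib]
      apply Finset.sum_congr rfl
      intro d _
      by_cases h : d * d ≤ n
      · rw [if_pos h, if_neg (by omega)]; rfl
      · rw [if_neg h, if_pos (by omega)]; omega
    have e2 : ∑ d ∈ n.divisors, (if n < d * d then d ^ s else 0)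
        = ∑ d ∈ n.divisors, (if d * d < n then (n / d) ^ s else 0) := by
      rw [← Nat.sum_div_divisors n (fun d => if n < d * d then d ^ s else 0)]
      apply Finset.sum_congr rfl
      intro d hd
      have hdn : d ∣ n := Nat.dvd_of_mem_divisors hd
      obtain ⟨e, rfl⟩ := hdn
      have hd0 : 0 < d := Nat.pos_of_ne_zero (by rintro rfl; simp at hpos)
      have he0 : 0 < e := Nat.pos_of_ne_zero (by rintro rfl; simp at hpos)
      rw [Nat.mul_div_cancel_left e hd0]
      have h1 : d * e < e * e ↔ d < e := Nat.mul_lt_mul_right he0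
      have h2 : d * d < d * e ↔ d < e := Nat.mul_lt_mul_left hd0
      simp only [h1, h2]
    rw [e1, e2, ← Finset.sum_add_distrib]
    apply Finset.sum_congr rfl
    intro d _
    by_cases h : d * d < n
    · rw [if_pos (by omega), if_pos h, if_pos h]
    · rw [if_neg h, if_neg h]
      by_cases h' : d * d = n
      · rw [if_pos (by omega), if_pos h']; rfl
      · rw [if_neg (by omega), if_neg h']
  rw [h1]
  have h2 : ∑ d ∈ range 64, sgTerm s n d = ∑ d ∈ (range 64).filter (fun d => d ∣ n),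
      (if d * d < n then d ^ s + (n / d) ^ s else if d * d = n then d ^ s else 0) := by
    rw [Finset.sum_filter]
    apply Finset.sum_congr rfl
    intro d _
    rw [sgTerm_eq]
    simp only [Nat.dvd_iff_mod_eq_zero]
  rw [h2]
  apply Finset.sum_subset
  · intro d hd
    rw [Finset.mem_filter] at hd
    exact Nat.mem_divisors.mpr ⟨hd.2, by omega⟩
  · intro d hd hnot
    have hdn : d ∣ n := Nat.dvd_of_mem_divisors hd
    have h64 : 64 ≤ d := by
      by_contra hlt
      exact hnot (Finset.mem_filter.mpr ⟨Finset.mem_range.mpr (by omega), hdn⟩)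
    have : 4096 ≤ d * d := by nlinarith
    rw [if_neg (by omega), if_neg (by omega)]

/-! ### The integral power series -/

/-- `∑ σ₃(n) q^n` -/
noncomputable def A : PowerSeries ℤ := PowerSeries.mk fun n => (ArithmeticFunction.sigma 3 n : ℤ)

/-- `∑ σ₅(n) q^n` -/
noncomputable def A5 : PowerSeries ℤ := PowerSeries.mk fun n => (ArithmeticFunction.sigma 5 n : ℤ)

/-- `∑ (5σ₃(n) + 7σ₅(n))/12 q^n` -/
noncomputable def Cc : PowerSeries ℤ := PowerSeries.mk fun n =>
  (((5 * ArithmeticFunction.sigma 3 n + 7 * ArithmeticFunction.sigma 5 n) / 12 : ℕ) : ℤ)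

/-- `E₄` -/
noncomputable def E4z : PowerSeries ℤ := 1 + 240 * A

/-- `E₆` -/
noncomputable def E6z : PowerSeries ℤ := 1 - 504 * A5

/-- `Δ` -/
noncomputable def Dz : PowerSeries ℤ := Cc + 100 * A ^ 2 + 8000 * A ^ 3 - 147 * A5 ^ 2

theorem twelve_dvd (n : ℕ) :
    12 ∣ 5 * ArithmeticFunction.sigma 3 n + 7 * ArithmeticFunction.sigma 5 n := by
  rw [ArithmeticFunction.sigma_apply, ArithmeticFunction.sigma_apply, Finset.mul_sum,
    Finset.mul_sum, ← Finset.sum_add_distrib]
  apply Finset.dvd_sum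
  intro d _
  have h : (5 * d ^ 3 + 7 * d ^ 5) % 12 = 0 := by
    have h12 : d % 12 < 12 := Nat.mod_lt _ (by norm_num)
    rw [Nat.add_mod, Nat.mul_mod, Nat.mul_mod 7, Nat.pow_mod, Nat.pow_mod d 5]
    generalize d % 12 = r at *
    interval_cases r <;> norm_num
  exact Nat.dvd_of_mod_eq_zero h

theorem twelve_Cc : 12 * Cc = 5 * A + 7 * A5 := by
  ext n
  have h := Nat.div_mul_cancel (twelve_dvd n)
  have e1 : (12 : PowerSeries ℤ) = PowerSeries.C 12 := by simp
  have e2 : (5 : PowerSeries ℤ) = PowerSeries.C 5 := by simp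
  have e3 : (7 : PowerSeries ℤ) = PowerSeries.C 7 := by simp
  rw [e1, e2, e3, map_add, PowerSeries.coeff_C_mul, PowerSeries.coeff_C_mul,
    PowerSeries.coeff_C_mul, Cc, A, A5, PowerSeries.coeff_mk, PowerSeries.coeff_mk,
    PowerSeries.coeff_mk]
  have h' : ((((5 * ArithmeticFunction.sigma 3 n + 7 * ArithmeticFunction.sigma 5 n) / 12 : ℕ)
      : ℤ)) * 12 = 5 * (ArithmeticFunction.sigma 3 n : ℤ) + 7 * (ArithmeticFunction.sigma 5 n : ℤ) := by
    exact_mod_cast h
  linarith

theorem delta_eq : 1728 * Dz = E4z ^ 3 - E6z ^ 2 := by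
  unfold Dz E4z E6z
  have h := twelve_Cc
  linear_combination 144 * h

theorem constCoeff_A : PowerSeries.constantCoeff A = 0 := by
  rw [← PowerSeries.coeff_zero_eq_constantCoeff_apply, A, PowerSeries.coeff_mk]; simp

theorem constCoeff_A5 : PowerSeries.constantCoeff A5 = 0 := by
  rw [← PowerSeries.coeff_zero_eq_constantCoeff_apply, A5, PowerSeries.coeff_mk]; simp

theorem constCoeff_Cc : PowerSeries.constantCoeff Cc = 0 := by
  rw [← PowerSeries.coeff_zero_eq_constantCoeff_apply, Cc, PowerSeries.coeff_mk]; simp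

theorem constCoeff_Dz : PowerSeries.constantCoeff Dz = 0 := by
  simp [Dz, constCoeff_A, constCoeff_A5, constCoeff_Cc]

theorem constCoeff_E4z : PowerSeries.constantCoeff E4z = 1 := by
  simp [E4z, constCoeff_A]

theorem constCoeff_E6z : PowerSeries.constantCoeff E6z = 1 := by
  simp [E6z, constCoeff_A5]

/-! ### The packed computation -/

/-- keep the first `2^k` digits -/
def cut (k P : ℕ) : ℕ := Nat.mod P (Nat.pow 2 (Nat.mul 96 (Nat.pow 2 k)))

/-- Newton iteration for the inverse of a series with constant term `1` -/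
def newton (N den k : ℕ) : ℕ :=
  Nat.rec 1 (fun k ih => force ih fun g =>
    force (red N (Nat.succ k) (Nat.mul (cut (Nat.succ k) den) g)) fun t =>
    force (red N (Nat.succ k) (Nat.add 2 (Nat.mul (Nat.sub N 1) t))) fun t' =>
    red N (Nat.succ k) (Nat.mul g t')) k

/-- linear combination -/
def lin (N K a P b Q : ℕ) : ℕ := red N K (Nat.add (Nat.mul a P) (Nat.mul b Q))

/-- product -/
def mul (N K P Q : ℕ) : ℕ := red N K (Nat.mul P Q)

/-- the whole computation -/
def engine (N K j0 : ℕ) (six : Bool) (post : ℕ → Bool) : Bool :=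
  force (pack (sg 3) K 0) fun s3 =>
  force (pack (sg 5) K 0) fun s5 =>
  force (red N K s3) fun a =>
  force (red N K s5) fun a5 =>
  force (red N K (Nat.div (Nat.add (Nat.mul 5 s3) (Nat.mul 7 s5)) 12)) fun c =>
  force (mul N K a a) fun a2 =>
  force (mul N K a2 a) fun a3 =>
  force (mul N K a5 a5) fun b2 =>
  force (lin N K 1 c 100 a2) fun d1 =>
  force (lin N K 8000 a3 (Nat.mul 147 (Nat.sub N 1)) b2) fun d2 =>
  force (lin N K 1 d1 1 d2) fun dl =>
  force (lin N K 1 1 240 a) fun e4 =>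
  force (lin N K 1 1 (Nat.mul 504 (Nat.sub N 1)) a5) fun e6 =>
  force (mul N K e4 e4) fun e42 =>
  force (mul N K e42 e4) fun e43 =>
  force (lin N K 1 e43 (Nat.mul j0 (Nat.sub N 1)) dl) fun den =>
  force (mul N K (cond six e6 e4) dl) fun num =>
  force (mul N K num (newton N den K)) fun F =>
  (Nat.beq (mul N K F den) num) && post F

/-! ### Soundness -/

theorem sigma_lt {k n : ℕ} (hk : k ≤ 5) (hn : n < 4096) :
    ArithmeticFunction.sigma k n < 2 ^ 72 := by
  rw [ArithmeticFunction.sigma_apply]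
  calc ∑ d ∈ n.divisors, d ^ k ≤ ∑ d ∈ n.divisors, 4096 ^ 5 := by
        apply Finset.sum_le_sum
        intro d hd
        have h1 : d ≤ n := Nat.divisor_le hd
        calc d ^ k ≤ 4096 ^ k := Nat.pow_le_pow_left (by omega) k
          _ ≤ 4096 ^ 5 := Nat.pow_le_pow_right (by norm_num) hk
    _ = n.divisors.card * 4096 ^ 5 := by rw [Finset.sum_const, smul_eq_mul]
    _ ≤ n * 4096 ^ 5 := Nat.mul_le_mul_right _ (Nat.card_divisors_le_self n)
    _ < 4096 * 4096 ^ 5 := Nat.mul_lt_mul_of_pos_right hn (by norm_num)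
    _ = 2 ^ 72 := by norm_num

section Soundness

variable {N K : ℕ}

theorem ev_dig_sigma {k : ℕ} (hk0 : k ≠ 0) (hk : k ≤ 5) (hK : K ≤ 12) {i : ℕ} (hi : i < 2 ^ K) :
    ev (fun i => sg k (0 + i)) (2 ^ K) / B ^ i % B = ArithmeticFunction.sigma k i := by
  have h12 : 2 ^ K ≤ 4096 := by
    calc 2 ^ K ≤ 2 ^ 12 := Nat.pow_le_pow_right (by norm_num) hK
      _ = 4096 := by norm_num
  rw [dig_ev, if_pos hi, Nat.zero_add, sg_eq k i hk0 (by omega)]
  intro j hj
  rw [Nat.zero_add, sg_eq k j hk0 (by omega)]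
  exact lt_trans (sigma_lt hk (by omega)) (by unfold B; norm_num)

theorem div_eq_ev (hK : K ≤ 12) :
    Nat.div (Nat.add (Nat.mul 5 (ev (fun i => sg 3 (0 + i)) (2 ^ K)))
      (Nat.mul 7 (ev (fun i => sg 5 (0 + i)) (2 ^ K)))) 12
      = ev (fun i => (5 * ArithmeticFunction.sigma 3 i + 7 * ArithmeticFunction.sigma 5 i) / 12)
        (2 ^ K) := by
  have h12 : 2 ^ K ≤ 4096 := by
    calc 2 ^ K ≤ 2 ^ 12 := Nat.pow_le_pow_right (by norm_num) hK
      _ = 4096 := by norm_num
  show (5 * ev (fun i => sg 3 (0 + i)) (2 ^ K) + 7 * ev (fun i => sg 5 (0 + i)) (2 ^ K)) / 12 = _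
  apply Nat.div_eq_of_eq_mul_left (by norm_num)
  unfold ev
  rw [Finset.mul_sum, Finset.mul_sum, ← Finset.sum_add_distrib, Finset.sum_mul]
  apply Finset.sum_congr rfl
  intro i hi
  have hi' := Finset.mem_range.mp hi
  simp only
  rw [Nat.zero_add, sg_eq 3 i (by norm_num) (by omega), sg_eq 5 i (by norm_num) (by omega)]
  have h := Nat.div_mul_cancel (twelve_dvd i)
  calc 5 * (ArithmeticFunction.sigma 3 i * B ^ i) + 7 * (ArithmeticFunction.sigma 5 i * B ^ i)
      = (5 * ArithmeticFunction.sigma 3 i + 7 * ArithmeticFunction.sigma 5 i) * B ^ i := by ring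
    _ = (5 * ArithmeticFunction.sigma 3 i + 7 * ArithmeticFunction.sigma 5 i) / 12 * 12
        * B ^ i := by rw [h]
    _ = _ := by ring

/-- reduction modulo `N` -/
noncomputable def φ (N : ℕ) : PowerSeries ℤ →+* PowerSeries (ZMod N) :=
  PowerSeries.map (Int.castRingHom (ZMod N))

theorem cast_neg_one_mul (hN : 1 < N) (m : ℕ) :
    ((Nat.mul m (Nat.sub N 1) : ℕ) : PowerSeries (ZMod N)) = - (m : PowerSeries (ZMod N)) := by
  have h : ((N : ℕ) : PowerSeries (ZMod N)) = 0 := by
    have h1 := (map_natCast (PowerSeries.C (R := ZMod N)) N).symm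
    rw [h1, ZMod.natCast_self, map_zero]
  show ((m * (N - 1) : ℕ) : PowerSeries (ZMod N)) = _
  rw [Nat.cast_mul, Nat.cast_sub (by omega), h]
  simp

theorem engine_sound (hN : 1 < N) (hN2 : N ≤ 2 ^ 36) (hK : K ≤ 12) {j0 : ℕ} (hj : j0 ≤ 2 ^ 10)
    {six : Bool} {post : ℕ → Bool} (h : engine N K j0 six post = true)
    {Fz : PowerSeries ℤ}
    (hF : Fz * (E4z ^ 3 - (j0 : PowerSeries ℤ) * Dz) = (cond six E6z E4z) * Dz) :
    ∃ F : ℕ, post F = true ∧ ∀ i < 2 ^ K,
      ((dig F i : ℕ) : ZMod N) = ((PowerSeries.coeff i Fz : ℤ) : ZMod N) := by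
  have hN0 : 0 < N := by omega
  have hN3 : N ≤ 2 ^ 40 := le_trans hN2 (by norm_num)
  have hNB : N ≤ B := le_trans hN2 (by unfold B; norm_num)
  have hK14 : K ≤ 14 := by omega
  have h12 : 2 ^ K ≤ 4096 := by
    calc 2 ^ K ≤ 2 ^ 12 := Nat.pow_le_pow_right (by norm_num) hK
      _ = 4096 := by norm_num
  unfold engine at h
  have r1 : pack (sg 3) K 0 = ev (fun i => sg 3 (0 + i)) (2 ^ K) := pack_eq _ _ _
  rw [force_eq] at h
  generalize pack (sg 3) K 0 = s3 at h r1
  have r2 : pack (sg 5) K 0 = ev (fun i => sg 5 (0 + i)) (2 ^ K) := pack_eq _ _ _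
  rw [force_eq] at h
  generalize pack (sg 5) K 0 = s5 at h r2
  -- a
  have ra : Rep N K (red N K s3) (φ N A) := by
    apply rep_red hN0
    intro i hi
    rw [r1, ev_dig_sigma (by norm_num) (by norm_num) hK hi]
    simp [φ, A]
  rw [force_eq] at h
  generalize red N K s3 = a at h ra
  have ra5 : Rep N K (red N K s5) (φ N A5) := by
    apply rep_red hN0
    intro i hi
    rw [r2, ev_dig_sigma (by norm_num) (by norm_num) hK hi]
    simp [φ, A5]
  rw [force_eq] at h
  generalize red N K s5 = a5 at h ra5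
  have rc : Rep N K (red N K (Nat.div (Nat.add (Nat.mul 5 s3) (Nat.mul 7 s5)) 12)) (φ N Cc) := by
    apply rep_red hN0
    intro i hi
    rw [r1, r2, div_eq_ev hK, dig_ev, if_pos hi]
    · unfold φ Cc
      rw [PowerSeries.coeff_map, PowerSeries.coeff_mk]
      exact (Int.cast_natCast _).symm
    · intro j hj
      have h3 := sigma_lt (k := 3) (n := j) (by norm_num) (by omega)
      have h5 := sigma_lt (k := 5) (n := j) (by norm_num) (by omega)
      have hB : (12 : ℕ) * 2 ^ 72 < B := by unfold B; norm_num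
      omega
  rw [force_eq] at h
  generalize red N K (Nat.div (Nat.add (Nat.mul 5 s3) (Nat.mul 7 s5)) 12) = c at h rc
  have ra2 : Rep N K (mul N K a a) (φ N A * φ N A) := rep_mul hN0 hN3 hK14 ra ra
  rw [force_eq] at h
  generalize mul N K a a = a2 at h ra2
  have ra3 : Rep N K (mul N K a2 a) (φ N A * φ N A * φ N A) := rep_mul hN0 hN3 hK14 ra2 ra
  rw [force_eq] at h
  generalize mul N K a2 a = a3 at h ra3
  have rb2 : Rep N K (mul N K a5 a5) (φ N A5 * φ N A5) := rep_mul hN0 hN3 hK14 ra5 ra5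
  rw [force_eq] at h
  generalize mul N K a5 a5 = b2 at h rb2
  have rd1 := rep_lin (a := 1) (b := 100) hN0 hN3 (by norm_num) (by norm_num) rc ra2
  rw [force_eq] at h
  change Rep N K (lin N K 1 c 100 a2) _ at rd1
  generalize lin N K 1 c 100 a2 = d1 at h rd1
  have hb147 : Nat.mul 147 (Nat.sub N 1) < 2 ^ 52 := by
    show 147 * (N - 1) < 2 ^ 52
    have : (2 : ℕ) ^ 36 * 147 < 2 ^ 52 := by norm_num
    omega
  have rd2 := rep_lin (a := 8000) (b := Nat.mul 147 (Nat.sub N 1)) hN0 hN3 (by norm_num) hb147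
    ra3 rb2
  rw [force_eq] at h
  change Rep N K (lin N K 8000 a3 (Nat.mul 147 (Nat.sub N 1)) b2) _ at rd2
  generalize lin N K 8000 a3 (Nat.mul 147 (Nat.sub N 1)) b2 = d2 at h rd2
  have rdl := rep_lin (a := 1) (b := 1) hN0 hN3 (by norm_num) (by norm_num) rd1 rd2
  rw [force_eq] at h
  change Rep N K (lin N K 1 d1 1 d2) _ at rdl
  generalize lin N K 1 d1 1 d2 = dl at h rdl
  have rdl' : Rep N K dl (φ N Dz) := by
    convert rdl using 1
    rw [cast_neg_one_mul hN]
    simp only [Dz, map_add, map_sub, map_mul, map_pow, map_ofNat, Nat.cast_one, Nat.cast_ofNat]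
    ring
  clear rdl rd1 rd2 rb2 ra3 ra2 rc
  have re4 := rep_lin (a := 1) (b := 240) hN0 hN3 (by norm_num) (by norm_num)
    (rep_one (K := K) hN) ra
  rw [force_eq] at h
  change Rep N K (lin N K 1 1 240 a) _ at re4
  generalize lin N K 1 1 240 a = e4 at h re4
  have re4' : Rep N K e4 (φ N E4z) := by
    convert re4 using 1
    simp only [E4z, map_add, map_mul, map_one, map_ofNat, Nat.cast_one, Nat.cast_ofNat]
    ring
  have hb504 : Nat.mul 504 (Nat.sub N 1) < 2 ^ 52 := by
    show 504 * (N - 1) < 2 ^ 52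
    have : (2 : ℕ) ^ 36 * 504 < 2 ^ 52 := by norm_num
    omega
  have re6 := rep_lin (a := 1) (b := Nat.mul 504 (Nat.sub N 1)) hN0 hN3 (by norm_num) hb504
    (rep_one (K := K) hN) ra5
  rw [force_eq] at h
  change Rep N K (lin N K 1 1 (Nat.mul 504 (Nat.sub N 1)) a5) _ at re6
  generalize lin N K 1 1 (Nat.mul 504 (Nat.sub N 1)) a5 = e6 at h re6
  have re6' : Rep N K e6 (φ N E6z) := by
    convert re6 using 1
    rw [cast_neg_one_mul hN]
    simp only [E6z, map_sub, map_mul, map_one, map_ofNat, Nat.cast_one, Nat.cast_ofNat]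
    ring
  have re42 : Rep N K (mul N K e4 e4) _ := rep_mul hN0 hN3 hK14 re4' re4'
  rw [force_eq] at h
  generalize mul N K e4 e4 = e42 at h re42
  have re43 : Rep N K (mul N K e42 e4) _ := rep_mul hN0 hN3 hK14 re42 re4'
  rw [force_eq] at h
  generalize mul N K e42 e4 = e43 at h re43
  have hbj : Nat.mul j0 (Nat.sub N 1) < 2 ^ 52 := by
    show j0 * (N - 1) < 2 ^ 52
    calc j0 * (N - 1) ≤ 2 ^ 10 * 2 ^ 36 := Nat.mul_le_mul hj (by omega)
      _ < 2 ^ 52 := by norm_num
  have rden := rep_lin (a := 1) (b := Nat.mul j0 (Nat.sub N 1)) hN0 hN3 (by norm_num) hbj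
    re43 rdl'
  rw [force_eq] at h
  change Rep N K (lin N K 1 e43 (Nat.mul j0 (Nat.sub N 1)) dl) _ at rden
  generalize lin N K 1 e43 (Nat.mul j0 (Nat.sub N 1)) dl = den at h rden
  have rden' : Rep N K den (φ N (E4z ^ 3 - (j0 : PowerSeries ℤ) * Dz)) := by
    convert rden using 1
    rw [cast_neg_one_mul hN]
    simp only [map_sub, map_mul, map_pow, map_natCast, Nat.cast_one]
    ring
  have rnum : Rep N K (mul N K (cond six e6 e4) dl) (φ N (cond six E6z E4z) * φ N Dz) := by
    apply rep_mul hN0 hN3 hK14 _ rdl'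
    cases six
    · exact re4'
    · exact re6'
  rw [force_eq] at h
  generalize mul N K (cond six e6 e4) dl = num at h rnum
  obtain ⟨f, hf⟩ : ∃ f : PowerSeries (ZMod N), Rep N K (mul N K num (newton N den K)) f :=
    rep_exists hN0 _
  rw [force_eq] at h
  generalize mul N K num (newton N den K) = F at h hf
  rw [Bool.and_eq_true] at h
  obtain ⟨hbeq, hpost⟩ := h
  have heq : mul N K F den = num := Nat.eq_of_beq_eq_true hbeq
  have rprod : Rep N K (mul N K F den) _ := rep_mul hN0 hN3 hK14 hf rden'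
  rw [heq] at rprod
  refine ⟨F, hpost, ?_⟩
  have hunit : IsUnit (φ N (E4z ^ 3 - (j0 : PowerSeries ℤ) * Dz)) := by
    rw [PowerSeries.isUnit_iff_constantCoeff]
    have : PowerSeries.constantCoeff (φ N (E4z ^ 3 - (j0 : PowerSeries ℤ) * Dz)) = 1 := by
      unfold φ
      rw [← PowerSeries.coeff_zero_eq_constantCoeff_apply, PowerSeries.coeff_map,
        PowerSeries.coeff_zero_eq_constantCoeff_apply]
      simp [constCoeff_E4z, constCoeff_Dz]
    rw [this]
    exact isUnit_one
  have hmain : ∀ i < 2 ^ K, PowerSeries.coeff i f = PowerSeries.coeff i (φ N Fz) := by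
    apply quotient_unique hunit
    intro i hi
    rw [rep_coeff_eq hNB rprod rnum hi, ← map_mul, ← map_mul, hF]
  intro i hi
  rw [dig_eq, rep_dig hNB hf hi, hmain i hi]
  simp [φ]

end Soundness

end Pool.Agent.X15.EisensteinPacked
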