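import Mathlib

/-!
# Packed power series: kernel computations with truncated power series over `ZMod N`

A truncated power series with coefficients in `[0, N)` is stored as the natural number
`∑ g i * (2^96)^i`; products are computed by one multiplication of natural numbers.
-/

namespace Pool.Agent.X15.PackedSeries

open Finset

/-- evaluate the first argument to a literal (in the kernel) and pass it on -/
def force {α : Type} (n : ℕ) (f : ℕ → α) : α := Nat.rec (f 0) (fun m _ => f (Nat.succ m)) n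

theorem force_eq {α : Type} (n : ℕ) (f : ℕ → α) : force n f = f n := by
  cases n <;> rfl

/-- the base -/
def B : ℕ := 2 ^ 96

/-- `∑_{i < D} g i * B^i` -/
def ev (g : ℕ → ℕ) (D : ℕ) : ℕ := ∑ i ∈ range D, g i * B ^ i

theorem B_pos : 0 < B := by unfold B; positivity

theorem ev_add (g : ℕ → ℕ) (a b : ℕ) :
    ev g (a + b) = ev g a + ev (fun i => g (a + i)) b * B ^ a := by
  unfold ev
  rw [Finset.sum_range_add, Finset.sum_mul]
  congr 1
  apply Finset.sum_congr rfl
  intro i _
  rw [pow_add]; ring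

theorem ev_succ' (g : ℕ → ℕ) (n : ℕ) : ev g (n + 1) = g 0 + B * ev (fun i => g (i + 1)) n := by
  unfold ev
  rw [Finset.sum_range_succ', Finset.mul_sum, add_comm]
  simp only [pow_zero, mul_one]
  congr 1
  apply Finset.sum_congr rfl
  intro i _
  rw [pow_succ]; ring

theorem ev_congr {g h : ℕ → ℕ} {D : ℕ} (H : ∀ i < D, g i = h i) : ev g D = ev h D := by
  unfold ev
  apply Finset.sum_congr rfl
  intro i hi
  rw [H i (Finset.mem_range.mp hi)]

/-- digits of an evaluation -/
theorem dig_ev (D : ℕ) : ∀ (g : ℕ → ℕ) (_ : ∀ i < D, g i < B) (i : ℕ),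
    ev g D / B ^ i % B = if i < D then g i else 0 := by
  induction D with
  | zero =>
    intro g _ i
    simp [ev]
  | succ n ih =>
    intro g hg i
    rw [ev_succ']
    cases i with
    | zero =>
      rw [pow_zero, Nat.div_one, Nat.add_mul_mod_self_left, Nat.mod_eq_of_lt (hg 0 (by omega)),
        if_pos (by omega)]
    | succ i =>
      have h1 : (g 0 + B * ev (fun i => g (i + 1)) n) / B = ev (fun i => g (i + 1)) n := by
        rw [Nat.add_mul_div_left _ _ B_pos, Nat.div_eq_of_lt (hg 0 (by omega)), Nat.zero_add]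
      rw [pow_succ', ← Nat.div_div_eq_div_mul, h1, ih (fun i => g (i + 1))
        (fun j hj => hg (j + 1) (by omega)) i]
      by_cases hi : i < n
      · rw [if_pos hi, if_pos (by omega)]
      · rw [if_neg hi, if_neg (by omega)]

/-- sum over a block of length `2^k` -/
def bsum (f : ℕ → ℕ) (k : ℕ) : ℕ → ℕ :=
  Nat.rec (fun a => f a) (fun k ih a => Nat.add (ih a) (ih (Nat.add a (Nat.pow 2 k)))) k

theorem bsum_eq (f : ℕ → ℕ) (k a : ℕ) : bsum f k a = ∑ i ∈ range (2 ^ k), f (a + i) := by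
  induction k generalizing a with
  | zero => simp [bsum]
  | succ k ih =>
    have h : bsum f (k + 1) a = bsum f k a + bsum f k (a + 2 ^ k) := rfl
    rw [h, ih, ih, pow_succ, mul_two, Finset.sum_range_add]
    congr 1
    apply Finset.sum_congr rfl
    intro i _
    rw [add_assoc]

/-- pack the values of `f` on a block of length `2^k` -/
def pack (f : ℕ → ℕ) (k : ℕ) : ℕ → ℕ :=
  Nat.rec (fun a => f a) (fun k ih a => force (Nat.add a (Nat.pow 2 k)) fun b =>
    Nat.add (ih a) (Nat.shiftLeft (ih b) (Nat.mul 96 (Nat.pow 2 k)))) k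

theorem pow_B (m : ℕ) : 2 ^ (96 * m) = B ^ m := by
  unfold B; rw [pow_mul]

theorem pack_eq (f : ℕ → ℕ) (k a : ℕ) : pack f k a = ev (fun i => f (a + i)) (2 ^ k) := by
  induction k generalizing a with
  | zero => simp [pack, ev]
  | succ k ih =>
    have h : pack f (k + 1) a = force (a + 2 ^ k) fun b =>
      pack f k a + (pack f k b) <<< (96 * 2 ^ k) := rfl
    rw [h, force_eq, ih, ih, Nat.shiftLeft_eq, pow_B, pow_succ, mul_two, ev_add]
    congr 2
    apply ev_congr
    intro i _
    rw [add_assoc]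

/-- reduce the first `2^k` digits modulo `N` -/
def red (N k : ℕ) : ℕ → ℕ :=
  Nat.rec (fun P => Nat.mod (Nat.mod P (Nat.pow 2 96)) N)
    (fun k ih P => force (Nat.mod P (Nat.pow 2 (Nat.mul 96 (Nat.pow 2 k)))) fun lo =>
      force (Nat.shiftRight P (Nat.mul 96 (Nat.pow 2 k))) fun hi =>
      Nat.add (ih lo) (Nat.shiftLeft (ih hi) (Nat.mul 96 (Nat.pow 2 k)))) k

theorem digit_mod (P m i : ℕ) (h : i < m) : P % B ^ m / B ^ i % B = P / B ^ i % B := by
  obtain ⟨d, rfl⟩ : ∃ d, m = i + 1 + d := ⟨m - (i + 1), by omega⟩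
  have e1 : B ^ (i + 1 + d) = B ^ i * (B * B ^ d) := by rw [pow_add, pow_succ]; ring
  rw [e1, Nat.mod_mul_right_div_self, Nat.mod_mul_right_mod]

theorem red_eq (N k P : ℕ) : red N k P = ev (fun i => P / B ^ i % B % N) (2 ^ k) := by
  induction k generalizing P with
  | zero =>
    have h : red N 0 P = P % 2 ^ 96 % N := rfl
    rw [h]
    simp [ev, B]
  | succ k ih =>
    have h : red N (k + 1) P = force (P % 2 ^ (96 * 2 ^ k)) fun lo =>
      force (P >>> (96 * 2 ^ k)) fun hi => red N k lo + (red N k hi) <<< (96 * 2 ^ k) := rfl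
    rw [h, force_eq, force_eq, ih, ih, Nat.shiftLeft_eq, Nat.shiftRight_eq_div_pow, pow_B,
      pow_succ, mul_two, ev_add]
    congr 1
    · apply ev_congr
      intro i hi
      rw [digit_mod _ _ _ hi]
    · congr 1
      apply ev_congr
      intro i _
      rw [Nat.div_div_eq_div_mul, ← pow_add]

/-- digit number `i` -/
def dig (P i : ℕ) : ℕ := Nat.mod (Nat.shiftRight P (Nat.mul 96 i)) (Nat.pow 2 96)

theorem dig_eq (P i : ℕ) : dig P i = P / B ^ i % B := by
  have h : dig P i = (P >>> (96 * i)) % 2 ^ 96 := rfl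
  rw [h, Nat.shiftRight_eq_div_pow, pow_B]
  rfl

section Rep

variable (N K : ℕ)

/-- `P` represents the power series `f` over `ZMod N` up to (excluding) degree `2^K`. -/
def Rep (P : ℕ) (f : PowerSeries (ZMod N)) : Prop :=
  ∃ g : ℕ → ℕ, (∀ i < 2 ^ K, g i < N) ∧ (∀ i < 2 ^ K, (g i : ZMod N) = PowerSeries.coeff i f) ∧
    P = ev g (2 ^ K)

variable {N K}

theorem rep_red (hN : 0 < N) {Q : ℕ} {f : PowerSeries (ZMod N)}
    (h : ∀ i < 2 ^ K, ((Q / B ^ i % B : ℕ) : ZMod N) = PowerSeries.coeff i f) :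
    Rep N K (red N K Q) f := by
  refine ⟨fun i => Q / B ^ i % B % N, fun i _ => Nat.mod_lt _ hN, fun i hi => ?_, red_eq N K Q⟩
  rw [ZMod.natCast_mod]
  exact h i hi

theorem rep_dig (hB : N ≤ B) {P : ℕ} {f : PowerSeries (ZMod N)} (h : Rep N K P f)
    {i : ℕ} (hi : i < 2 ^ K) : ((P / B ^ i % B : ℕ) : ZMod N) = PowerSeries.coeff i f := by
  obtain ⟨g, h1, h2, rfl⟩ := h
  rw [dig_ev _ g (fun i hi => lt_of_lt_of_le (h1 i hi) hB), if_pos hi, h2 i hi]

theorem rep_one (hN : 1 < N) : Rep N K 1 (1 : PowerSeries (ZMod N)) := by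
  refine ⟨fun i => if i = 0 then 1 else 0, ?_, ?_, ?_⟩
  · intro i _
    simp only
    split_ifs <;> omega
  · intro i _
    rw [PowerSeries.coeff_one]
    by_cases h : i = 0 <;> simp [h]
  · unfold ev
    rw [Finset.sum_eq_single 0]
    · simp
    · intro i _ hi
      simp [hi]
    · intro h
      exact absurd (Finset.mem_range.mpr (by positivity)) h

/-- linear combinations -/
theorem rep_lin (hN : 0 < N) (hN2 : N ≤ 2 ^ 40) {P Q a b : ℕ} (ha : a < 2 ^ 52) (hb : b < 2 ^ 52)
    {f h : PowerSeries (ZMod N)} (hP : Rep N K P f) (hQ : Rep N K Q h) :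
    Rep N K (red N K (Nat.add (Nat.mul a P) (Nat.mul b Q)))
      ((a : PowerSeries (ZMod N)) * f + (b : PowerSeries (ZMod N)) * h) := by
  apply rep_red hN
  intro i hi
  obtain ⟨u, hu, hu2, rfl⟩ := hP
  obtain ⟨v, hv, hv2, rfl⟩ := hQ
  have e : Nat.add (Nat.mul a (ev u (2 ^ K))) (Nat.mul b (ev v (2 ^ K)))
      = ev (fun i => a * u i + b * v i) (2 ^ K) := by
    show a * ev u (2 ^ K) + b * ev v (2 ^ K) = _
    unfold ev
    rw [Finset.mul_sum, Finset.mul_sum, ← Finset.sum_add_distrib]
    apply Finset.sum_congr rfl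
    intro i _
    ring
  rw [e, dig_ev, if_pos hi]
  · push_cast
    rw [hu2 i hi, hv2 i hi, map_add]
    congr 1
    · rw [show (a : PowerSeries (ZMod N)) = PowerSeries.C ((a : ZMod N)) by simp,
        PowerSeries.coeff_C_mul]
    · rw [show (b : PowerSeries (ZMod N)) = PowerSeries.C ((b : ZMod N)) by simp,
        PowerSeries.coeff_C_mul]
  · intro j hj
    have h1 : a * u j < 2 ^ 52 * 2 ^ 40 := by
      have := hu j hj
      calc a * u j ≤ a * 2 ^ 40 := Nat.mul_le_mul_left _ (by omega)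
        _ < 2 ^ 52 * 2 ^ 40 := Nat.mul_lt_mul_of_pos_right ha (by norm_num)
    have h2 : b * v j < 2 ^ 52 * 2 ^ 40 := by
      have := hv j hj
      calc b * v j ≤ b * 2 ^ 40 := Nat.mul_le_mul_left _ (by omega)
        _ < 2 ^ 52 * 2 ^ 40 := Nat.mul_lt_mul_of_pos_right hb (by norm_num)
    unfold B
    calc a * u j + b * v j < 2 ^ 52 * 2 ^ 40 + 2 ^ 52 * 2 ^ 40 := by omega
      _ ≤ 2 ^ 96 := by norm_num

/-- products -/
theorem rep_mul (hN : 0 < N) (hN2 : N ≤ 2 ^ 40) (hK : K ≤ 14) {P Q : ℕ}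
    {f h : PowerSeries (ZMod N)} (hP : Rep N K P f) (hQ : Rep N K Q h) :
    Rep N K (red N K (Nat.mul P Q)) (f * h) := by
  apply rep_red hN
  intro i hi
  obtain ⟨u, hu, hu2, rfl⟩ := hP
  obtain ⟨v, hv, hv2, rfl⟩ := hQ
  set D := 2 ^ K with hD
  let pu : Polynomial ℕ := ∑ i ∈ range D, Polynomial.monomial i (u i)
  let pv : Polynomial ℕ := ∑ i ∈ range D, Polynomial.monomial i (v i)
  have cu : ∀ i, pu.coeff i = if i < D then u i else 0 := by
    intro i
    simp only [pu, Polynomial.finsetSum_coeff, Polynomial.coeff_monomial]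
    rw [Finset.sum_ite_eq']
    simp
  have cv : ∀ i, pv.coeff i = if i < D then v i else 0 := by
    intro i
    simp only [pv, Polynomial.finsetSum_coeff, Polynomial.coeff_monomial]
    rw [Finset.sum_ite_eq']
    simp
  have eu : pu.eval B = ev u D := by
    simp only [pu, Polynomial.eval_finsetSum, Polynomial.eval_monomial]
    rfl
  have evv : pv.eval B = ev v D := by
    simp only [pv, Polynomial.eval_finsetSum, Polynomial.eval_monomial]
    rfl
  have hDpos : 0 < D := by positivity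
  have du : pu.natDegree < D := by
    have : pu.natDegree ≤ D - 1 := by
      rw [Polynomial.natDegree_le_iff_coeff_eq_zero]
      intro m hm
      rw [cu, if_neg (by omega)]
    omega
  have dv : pv.natDegree < D := by
    have : pv.natDegree ≤ D - 1 := by
      rw [Polynomial.natDegree_le_iff_coeff_eq_zero]
      intro m hm
      rw [cv, if_neg (by omega)]
    omega
  have dm : (pu * pv).natDegree < 2 * D := by
    have := Polynomial.natDegree_mul_le (p := pu) (q := pv)
    omega
  have e : Nat.mul (ev u D) (ev v D) = ev (fun k => (pu * pv).coeff k) (2 * D) := by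
    show ev u D * ev v D = _
    rw [← eu, ← evv, ← Polynomial.eval_mul, Polynomial.eval_eq_sum_range' dm]
    rfl
  have hub : ∀ i, pu.coeff i ≤ 2 ^ 40 := by
    intro i
    rw [cu]
    split_ifs with h
    · have := hu i h; omega
    · positivity
  have hvb : ∀ i, pv.coeff i ≤ 2 ^ 40 := by
    intro i
    rw [cv]
    split_ifs with h
    · have := hv i h; omega
    · positivity
  rw [e, dig_ev, if_pos (by omega)]
  · rw [Polynomial.coeff_mul, PowerSeries.coeff_mul, Nat.cast_sum]
    apply Finset.sum_congr rfl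
    rintro ⟨a, b⟩ hab
    rw [Finset.HasAntidiagonal.mem_antidiagonal] at hab
    simp only at hab ⊢
    rw [cu, cv, if_pos (by omega), if_pos (by omega), Nat.cast_mul, hu2 a (by omega),
      hv2 b (by omega)]
  · intro k hk
    rw [Polynomial.coeff_mul]
    calc ∑ x ∈ antidiagonal k, pu.coeff x.1 * pv.coeff x.2
        ≤ ∑ x ∈ antidiagonal k, 2 ^ 40 * 2 ^ 40 :=
          Finset.sum_le_sum fun x _ => Nat.mul_le_mul (hub _) (hvb _)
      _ = (k + 1) * (2 ^ 40 * 2 ^ 40) := by
          rw [Finset.sum_const, Finset.Nat.card_antidiagonal, smul_eq_mul]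
      _ ≤ (2 * D) * (2 ^ 40 * 2 ^ 40) := Nat.mul_le_mul_right _ (by omega)
      _ ≤ (2 * 2 ^ 14) * (2 ^ 40 * 2 ^ 40) :=
          Nat.mul_le_mul_right _ (Nat.mul_le_mul_left _ (Nat.pow_le_pow_right (by norm_num) hK))
      _ < B := by unfold B; norm_num

/-- every output of `red` represents some power series -/
theorem rep_exists (hN : 0 < N) (Q : ℕ) : ∃ f : PowerSeries (ZMod N), Rep N K (red N K Q) f :=
  ⟨PowerSeries.mk fun i => ((Q / B ^ i % B : ℕ) : ZMod N), rep_red hN (by intro i _; simp)⟩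

theorem rep_coeff_eq (hB : N ≤ B) {P : ℕ} {f h : PowerSeries (ZMod N)}
    (hf : Rep N K P f) (hh : Rep N K P h) {i : ℕ} (hi : i < 2 ^ K) :
    PowerSeries.coeff i f = PowerSeries.coeff i h := by
  rw [← rep_dig hB hf hi, ← rep_dig hB hh hi]

theorem rep_congr {P : ℕ} {f h : PowerSeries (ZMod N)}
    (hf : Rep N K P f) (H : ∀ i < 2 ^ K, PowerSeries.coeff i f = PowerSeries.coeff i h) :
    Rep N K P h := by
  obtain ⟨g, h1, h2, h3⟩ := hf
  exact ⟨g, h1, fun i hi => (h2 i hi).trans (H i hi), h3⟩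

/-- uniqueness of truncated quotients -/
theorem quotient_unique {f g d : PowerSeries (ZMod N)} (hd : IsUnit d) (D : ℕ)
    (H : ∀ i < D, PowerSeries.coeff i (f * d) = PowerSeries.coeff i (g * d)) :
    ∀ i < D, PowerSeries.coeff i f = PowerSeries.coeff i g := by
  obtain ⟨e, he⟩ := hd
  have h1 : (PowerSeries.X : PowerSeries (ZMod N)) ^ D ∣ (f - g) * d := by
    rw [PowerSeries.X_pow_dvd_iff]
    intro m hm
    rw [sub_mul, map_sub, H m hm, sub_self]
  have h2 : (PowerSeries.X : PowerSeries (ZMod N)) ^ D ∣ f - g := by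
    have : f - g = (f - g) * d * (↑e⁻¹ : PowerSeries (ZMod N)) := by
      rw [mul_assoc, ← he, Units.mul_inv, mul_one]
    rw [this]
    exact Dvd.dvd.mul_right h1 _
  rw [PowerSeries.X_pow_dvd_iff] at h2
  intro i hi
  have := h2 i hi
  rw [map_sub, sub_eq_zero] at this
  exact this

end Rep

end Pool.Agent.X15.PackedSeries
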